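import Pool.Agent.MP_dbdb85_co.Defs

/-! The third class at the level `Δ + 1`. -/

namespace Pool.Agent.MP_dbdb85_co

open Multiset

theorem split_Athree (a b e : ℕ) (Z R : Multiset ℕ) :
    a ::ₘ b ::ₘ e ::ₘ (Z + R) = (a ::ₘ b ::ₘ {e}) + Z + R := by
  simp only [cons_add, singleton_add]

theorem cnt_Athree {d : Multiset ℕ} (h : ∀ x ∈ d, 2 ≤ x) : count 2 d + cn d 3 = card d := by
  induction d using Multiset.induction_on with
  | empty => simp [cn]
  | cons a d ih =>
    have h1 := ih fun x hx => h x (mem_cons_of_mem hx)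
    have h2 := h a (mem_cons_self _ _)
    simp only [cn, filter_cons, count_cons, card_add, card_cons] at h1 ⊢
    split_ifs <;> simp <;> omega

theorem core_Athree (hn : S_nec) (hs : S_suf) (ht : S_tight) {a b e a' b' e' m : ℕ}
    {R : Multiset ℕ} (hg : Gr (a ::ₘ b ::ₘ e ::ₘ (replicate (3 * m) 2 + R)))
    (htt : Tight (a ::ₘ b ::ₘ e ::ₘ (replicate (3 * m) 2 + R)))
    (hsum : a + b + e = a' + b' + e') (h3 : 3 ≤ e) (heb : e ≤ b) (hba : b ≤ a)
    (hR : ∀ y ∈ R, 2 ≤ y ∧ y ≤ e) (h4 : e ≤ e') (h5 : e' ≤ b') (h6 : b' ≤ a')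
    (hc : a' + 1 ≤ 3 + 2 * m + card R) :
    FB (a' ::ₘ b' ::ₘ e' ::ₘ (replicate (2 * m) 3 + R)) := by
  rw [split_Athree] at hg htt ⊢
  obtain ⟨hev, heg⟩ := hn _ hg
  generalize hT : a ::ₘ b ::ₘ ({e} : Multiset ℕ) = T at *
  generalize hT' : a' ::ₘ b' ::ₘ ({e'} : Multiset ℕ) = T' at *
  have c1 : card T = 3 := by rw [← hT]; simp
  have c2 : card T' = 3 := by rw [← hT']; simp
  have s1 : T.sum = T'.sum := by rw [← hT, ← hT']; simp; omega
  have m1 : ∀ x ∈ T, e ≤ x := by
    intro x hx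
    rw [← hT] at hx
    simp only [mem_cons, mem_singleton] at hx
    omega
  have m2 : ∀ x ∈ T', e ≤ x ∧ x ≤ a' := by
    intro x hx
    rw [← hT'] at hx
    simp only [mem_cons, mem_singleton] at hx
    omega
  have z1 : ∀ z ∈ replicate (3 * m) 2, z = 2 := fun z hz => eq_of_mem_replicate hz
  have z2 : ∀ z ∈ replicate (2 * m) 3, z = 3 := fun z hz => eq_of_mem_replicate hz
  have s2 : (replicate (3 * m) 2).sum = (replicate (2 * m) 3).sum := by simp; omega
  have t1 : ∀ x ∈ T, ∀ y ∈ R, y ≤ x := fun x hx y hy => (hR y hy).2.trans (m1 x hx)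
  have t2 : ∀ x ∈ T', ∀ y ∈ R, y ≤ x := fun x hx y hy => (hR y hy).2.trans (m2 x hx).1
  have q1 : ∀ x ∈ T, ∀ y ∈ replicate (3 * m) 2 + R, y ≤ x := by
    intro x hx y hy
    rcases mem_add.1 hy with hy | hy
    · have := z1 y hy
      have := m1 x hx
      omega
    · exact t1 x hx y hy
  have q2 : ∀ x ∈ T', ∀ y ∈ replicate (2 * m) 3 + R, y ≤ x := by
    intro x hx y hy
    rcases mem_add.1 hy with hy | hy
    · have := z2 y hy
      have := m2 x hx
      omega
    · exact t2 x hx y hy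
  have hall : ∀ x ∈ T' + replicate (2 * m) 3 + R, 2 ≤ x ∧ x ≤ a' := by
    intro x hx
    rcases mem_add.1 hx with hx | hx
    · rcases mem_add.1 hx with hx | hx
      · have := m2 x hx
        omega
      · have := z2 x hx
        omega
    · have := hR x hx
      omega
  have b1 : Big T := fun x hx => by have := m1 x hx; omega
  have b2 : Big T' := fun x hx => by have := m2 x hx; omega
  have k3 : Cs (T' + replicate (2 * m) 3 + R) 3 = Cs (T + replicate (3 * m) 2 + R) 3 := by
    have e1 : Cs T 3 = 9 := by rw [Cs_of_ge fun x hx => h3.trans (m1 x hx), c1]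
    have e2 : Cs T' 3 = 9 := by rw [Cs_of_ge fun x hx => h3.trans (m2 x hx).1, c2]
    have e3 : min 3 2 = 2 := rfl
    simp only [Cs_add, Cs_replicate, e1, e2, e3, min_self]
    omega
  have hg' : Gr (T' + replicate (2 * m) 3 + R) := by
    refine hs _ ?_ ?_
    · simp only [sum_add] at hev ⊢
      rwa [← s1, ← s2]
    · intro K hK hb
      rcases Nat.lt_or_ge (card K) 3 with h | h
      · have e1 := sum_le_of_le (d := K) fun x hx => (hall x (mem_of_le hK hx)).2
        rw [Cs_of_ge fun x hx => le_trans (by omega) (hall x hx).1]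
        simp only [card_add, card_replicate, c2]
        nlinarith
      rcases h.eq_or_lt with h | h
      · have e1 := top_sum q2 (K := K) (by rwa [← add_assoc]) (by omega)
        have e2 := heg T (by rw [add_assoc]; exact le_add_right _ _) b1
        rw [← h, k3]
        rw [c1] at e2
        omega
      · obtain ⟨K₀, k1, k2, k4, k5, k6⟩ := transfer (Z := replicate (3 * m) 2) (c1.trans c2.symm)
          t1 t2 hK hb (by omega) (fun z hz => by have := z1 z hz; omega)
          (fun z hz => by have := z2 z hz; omega)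
        have e2 := heg K₀ k1 k2
        rw [k4] at e2
        omega
  refine ht _ hg' (fun x hx => (hall x hx).1) ?_
  obtain ⟨K, hK, hb, h, hl⟩ := htt
  rcases h.eq_or_lt with h | h
  · have e1 := top_sum q1 (K := K) (by rwa [← add_assoc]) (by omega)
    refine ⟨T', by rw [add_assoc]; exact le_add_right _ _, b2, c2.ge, ?_⟩
    rw [← h] at hl
    rw [c2, k3]
    omega
  · obtain ⟨K₀, k1, k2, k4, k5, k6⟩ := transfer (Z := replicate (2 * m) 3) (c2.trans c1.symm)
      t2 t1 hK hb (by omega) (fun z hz => by have := z2 z hz; omega)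
      (fun z hz => by have := z1 z hz; omega)
    refine ⟨K₀, k1, k2, by omega, ?_⟩
    rw [k4]
    omega

theorem top_Athree {e s : ℕ} {R : Multiset ℕ} (h3 : 3 ≤ e) (hR : ∀ y ∈ R, y ≤ e) :
    ∀ y ∈ replicate (2 * (s + 1)) 3 + R, y ≤ e + 3 * s + 2 := by
  intro y hy
  rcases mem_add.1 hy with hy | hy
  · have := eq_of_mem_replicate hy
    omega
  · have := hR y hy
    omega

theorem top2_Athree {D g e s : ℕ} {R : Multiset ℕ} (h3 : 3 ≤ e) (hR : ∀ y ∈ R, y ≤ e)
    (h : 6 * s + g + 2 + e ≤ D) :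
    ∀ y ∈ (e + 3 * s + 2) ::ₘ (replicate (2 * (s + 1)) 3 + R), y ≤ D - 3 * s - g := by
  intro y hy
  rcases mem_cons.1 hy with hy | hy
  · omega
  · have := top_Athree (s := s) h3 hR y hy
    omega

theorem s_A3 (hn : S_nec) (hs : S_suf) (hm : S_min) (ht : S_tight) (h2 : S_n2) : S_A3 := by
  intro n D w hD
  refine Lc_le (fun d d' => ∃ (s g e : ℕ) (R : Multiset ℕ), g ≤ 2 ∧ 3 ≤ e ∧ (∀ y ∈ R, y ≤ e) ∧
    6 * s + g + 2 + e ≤ D ∧
    d = (D + 1) ::ₘ (D + 1 - g) ::ₘ e ::ₘ (replicate (3 * (s + 1)) 2 + R) ∧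
    d' = D ::ₘ (D - 3 * s - g) ::ₘ (e + 3 * s + 2) ::ₘ (replicate (2 * (s + 1)) 3 + R)) ?_ ?_
  · intro d hd hA
    obtain ⟨-, hsum, hsup, hfb⟩ := mem_Lf.1 hd
    obtain ⟨a1, a2, a3, a4, a5⟩ := hA
    obtain ⟨c3, hmin⟩ := hm d hfb
    obtain ⟨R₀, hd0, o1, o2, o3⟩ := exists_top3 c3
    rw [hsup] at hd0 o1 o2 o3
    generalize sec (D + 1) d = b at *
    generalize thi (D + 1) d = e at *
    have hcnt := cnt_Athree fun x hx => (hmin x hx).1
    have hlt : D + 1 < card d := (hmin (D + 1) (by rw [hd0]; exact mem_cons_self _ _)).2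
    obtain ⟨s, hs0⟩ : ∃ s, card d = D + 2 + s := ⟨card d - (D + 2), by omega⟩
    obtain ⟨g, hg0⟩ : ∃ g, D + 1 = b + g := ⟨D + 1 - b, by omega⟩
    have hR₀ : ∀ y ∈ e ::ₘ R₀, y ≤ e := by
      intro y hy
      rcases mem_cons.1 hy with hy | hy
      · exact hy.le
      · exact o3 y hy
    have hc2 : count 2 d = count 2 (e ::ₘ R₀) := by
      rw [hd0, count_cons_of_ne (by omega), count_cons_of_ne (by omega)]
    have htd : Tight d := by
      obtain ⟨R₁, hR₁⟩ := exists_replicate (d := e ::ₘ R₀) (m := 2) (a := 2) (by omega)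
      have hcard : card d = card R₁ + 4 := by
        rw [hd0, hR₁]
        simp only [card_cons, card_add, card_replicate]
        omega
      rw [hd0, hR₁] at hfb ⊢
      refine h2 _ _ _ hfb (by omega) o1 (fun y hy => ?_) (by omega)
      have := hR₀ y (by rw [hR₁]; exact mem_add.2 (Or.inr hy))
      omega
    have he3 : 3 ≤ e := by
      obtain ⟨K, hK, hb, h, -⟩ := htd
      have hK' : K ≤ ((D + 1) ::ₘ {b}) + (e ::ₘ R₀) := by
        rw [cons_add, singleton_add, ← hd0]
        exact hK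
      obtain ⟨B, k1, k2, k3, -⟩ := exch (T := (D + 1) ::ₘ {b}) (R := e ::ₘ R₀) (by
        intro x hx y hy
        have := hR₀ y hy
        simp only [mem_cons, mem_singleton] at hx
        omega) hK' (by simp; omega)
      simp only [card_cons, card_singleton] at k3
      obtain ⟨x, hx⟩ := card_pos_iff_exists_mem.1 (show 0 < card B by omega)
      have := hb x (mem_of_le k2 hx)
      have := hR₀ x (mem_of_le k1 hx)
      omega
    rw [count_cons_of_ne (by omega)] at hc2
    obtain ⟨R, hR⟩ := exists_replicate (d := R₀) (m := 3 * (s + 1)) (a := 2) (by omega)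
    subst hR
    have hRe : ∀ y ∈ R, y ≤ e := fun y hy => o3 y (mem_add.2 (Or.inr hy))
    have hR2 : ∀ y ∈ R, 2 ≤ y := fun y hy => (hmin y (by
      rw [hd0]
      exact mem_cons_of_mem (mem_cons_of_mem (mem_cons_of_mem (mem_add.2 (Or.inr hy)))))).1
    have hcard : card d = 3 + 3 * (s + 1) + card R := by
      rw [hd0]
      simp only [card_cons, card_add, card_replicate]
      omega
    have hds : d.sum = D + 1 + b + e + 6 * (s + 1) + R.sum := by
      rw [hd0]
      simp only [sum_cons, sum_add, sum_replicate, smul_eq_mul]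
      omega
    have hbd : 6 * s + g + 2 + e ≤ D := by omega
    have ht2 := top2_Athree he3 hRe hbd
    have hfb' : FB (D ::ₘ (D - 3 * s - g) ::ₘ (e + 3 * s + 2) ::ₘ
        (replicate (2 * (s + 1)) 3 + R)) :=
      core_Athree hn hs ht (a := D + 1) (b := b) (e := e) (hd0 ▸ hfb.1) (hd0 ▸ htd) (by omega) he3
        o2 o1 (fun y hy => ⟨hR2 y hy, hRe y hy⟩) (by omega) (by omega) (by omega) (by omega)
    refine ⟨_, mem_Lf.2 ⟨fun x hx => ?_, ?_, sup_cons_of fun y hy => ?_, hfb'⟩, ?_,
      s, g, e, R, by omega, he3, hRe, hbd, ?_, rfl⟩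
    · have := ((hm _ hfb').2 x hx).1
      omega
    · simp only [sum_cons, sum_add, sum_replicate, smul_eq_mul]
      omega
    · rcases mem_cons.1 hy with hy | hy
      · omega
      · have := ht2 y hy
        omega
    · refine ⟨?_, ?_, ?_⟩
      · simp only [card_cons, card_add, card_replicate]
        omega
      · rw [sec_cons ht2]
        omega
      · rw [sec_cons ht2]
        omega
    · rw [show D + 1 - g = b by omega]
      exact hd0
  · rintro d₁ d₂ d' ⟨s, g, e, R, g2, e3, hR, hb, rfl, rfl⟩ ⟨s', g', e', R', g2', e3', hR', hb', rfl, h⟩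
    obtain ⟨h1, h3⟩ := cons_unique (top2_Athree e3 hR hb) (top2_Athree e3' hR' hb')
      ((cons_inj_right D).1 h)
    obtain rfl : s = s' := by omega
    obtain rfl : g = g' := by omega
    obtain ⟨h4, h5⟩ := cons_unique (top_Athree e3 hR) (top_Athree e3' hR') h3
    obtain rfl : e = e' := by omega
    rw [add_left_cancel h5]

end Pool.Agent.MP_dbdb85_co
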