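import Mathlib

/-! Forcibly biconnected graphical partitions counted by their largest part. -/

namespace Pool.Agent.MP_dbdb85_co

/-- the multiset of the vertex degrees of a finite simple graph -/
noncomputable def degs {V : Type} [Fintype V] (G : SimpleGraph V) : Multiset ℕ :=
  Finset.univ.val.map fun v => (G.neighborSet v).ncard

/-- at least three vertices, connected, and connected after deleting any one vertex -/
def Biconn {V : Type} [Fintype V] (G : SimpleGraph V) : Prop :=
  3 ≤ Fintype.card V ∧ G.Connected ∧ ∀ v : V, (G.induce {v}ᶜ).Connected

/-- `d` is the degree multiset of some finite simple graph -/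
def Gr (d : Multiset ℕ) : Prop :=
  ∃ (V : Type) (_ : Fintype V) (G : SimpleGraph V), degs G = d

/-- `d` is graphical and every realization of `d` is biconnected -/
def FB (d : Multiset ℕ) : Prop :=
  Gr d ∧ ∀ (V : Type) [Fintype V] (G : SimpleGraph V), degs G = d → Biconn G

/-- the number of forcibly biconnected graphical partitions of `n` with largest part `Δ` -/
noncomputable def l2 (n Δ : ℕ) : ℕ :=
  {π : Nat.Partition n | π.parts.sup = Δ ∧ FB π.parts}.ncard

end Pool.Agent.MP_dbdb85_co
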