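import Pool.Agent.MP_dbdb85_co.Basic

/-! Definitions, multiset tools and the list of statements. -/

namespace Pool.Agent.MP_dbdb85_co

open Multiset

/-- sum of the first `k` column lengths -/
def Cs (d : Multiset ℕ) (k : ℕ) : ℕ := (d.map (min k)).sum

/-- number of parts that are at least `y` -/
def cn (d : Multiset ℕ) (y : ℕ) : ℕ := card (d.filter (y ≤ ·))

/-- all elements are at least the cardinality -/
def Big (K : Multiset ℕ) : Prop := ∀ x ∈ K, card K ≤ x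

/-- the inequalities of Erdős and Gallai inside the Durfee square -/
def EG (d : Multiset ℕ) : Prop := ∀ K ≤ d, Big K → K.sum + card K ≤ Cs d (card K)

/-- slack at most one for some set of at least three parts -/
def Tight (d : Multiset ℕ) : Prop :=
  ∃ K ≤ d, Big K ∧ 3 ≤ card K ∧ Cs d (card K) ≤ K.sum + card K + 1

/-- second largest part when the largest part is `a` -/
def sec (a : ℕ) (d : Multiset ℕ) : ℕ := (d.erase a).sup

/-- third largest part when the largest part is `a` -/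
def thi (a : ℕ) (d : Multiset ℕ) : ℕ := ((d.erase a).erase (sec a d)).sup

/-- partitions of `m` as multisets -/
noncomputable def Par (m : ℕ) : Finset (Multiset ℕ) :=
  Finset.univ.image (fun π : Nat.Partition m => π.parts)

/-- partitions of the numbers up to `m` -/
noncomputable def Ple (m : ℕ) : Finset (Multiset ℕ) := (Finset.range (m + 1)).biUnion Par

/-- number of partitions of `m` -/
noncomputable def P (m : ℕ) : ℕ := (Par m).card

/-- number of partitions of `m` into parts at most `Q` -/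
noncomputable def Pq (Q m : ℕ) : ℕ := ((Par m).filter (fun d => ∀ x ∈ d, x ≤ Q)).card

open Classical in
/-- the partitions counted by `l2` -/
noncomputable def Lf (n Δ : ℕ) : Finset (Multiset ℕ) :=
  (Par n).filter (fun d => d.sup = Δ ∧ FB d)

open Classical in
/-- number of elements of `Lf n Δ` with a property -/
noncomputable def Lc (n Δ : ℕ) (F : Multiset ℕ → Prop) : ℕ := ((Lf n Δ).filter F).card

open Classical in
/-- partitions of numbers up to `N` with a long row, a long column or a small sum -/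
noncomputable def Out (N w : ℕ) : Finset (Multiset ℕ) :=
  (Ple N).filter (fun d => (∃ x ∈ d, w ≤ x) ∨ w ≤ card d ∨ d.sum + w ≤ N)

open Classical in
/-- graphical partitions of `M` with at most `q` parts and at most three ones -/
noncomputable def Tg (M q : ℕ) : Finset (Multiset ℕ) :=
  (Par M).filter (fun d => Gr d ∧ card d ≤ q ∧ count 1 d ≤ 3)

/-- Durfee side `D`, arms `r` and legs `c` outside the square -/
def IsTri (D : ℕ) (r c : ℕ → ℕ) : Prop := Antitone r ∧ Antitone c ∧ r D = 0 ∧ c D = 0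

/-- the size of the partition with these data -/
def mass (D : ℕ) (r c : ℕ → ℕ) : ℕ :=
  D ^ 2 + ∑ j ∈ Finset.range D, r j + ∑ j ∈ Finset.range D, c j

/-- the partition with these data -/
def Psi (D : ℕ) (r c : ℕ → ℕ) : Multiset ℕ :=
  (Multiset.range D).map (fun j => D + r j) +
    ∑ j ∈ Finset.range D, replicate (c j - c (j + 1)) (j + 1)

open Classical in
/-- partitions of numbers up to `M` whose successive ranks are all at most zero -/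
noncomputable def Neg (M : ℕ) : Finset (Multiset ℕ) :=
  (Ple M).filter (fun d => ∃ D r c, IsTri D r c ∧ Psi D r c = d ∧ ∀ j, r j ≤ c j)

/-! Classes at the level `Δ + 1` -/

def A1 (Δ : ℕ) (d : Multiset ℕ) : Prop := sec (Δ + 1) d + 2 ≤ Δ ∧ Tight d

def A2 (Δ w : ℕ) (d : Multiset ℕ) : Prop :=
  Δ ≤ sec (Δ + 1) d + 1 ∧ thi (Δ + 1) d ≤ w ∧ cn d 3 ≤ w ∧ card d ≤ sec (Δ + 1) d + 2

def A3 (Δ w : ℕ) (d : Multiset ℕ) : Prop :=
  Δ ≤ sec (Δ + 1) d + 1 ∧ thi (Δ + 1) d ≤ w ∧ cn d 3 ≤ w ∧ card d ≤ Δ + 2 + w ∧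
    sec (Δ + 1) d + 3 ≤ card d

def A4 (Δ w : ℕ) (d : Multiset ℕ) : Prop :=
  ¬ Tight d ∧ count 2 d ≤ 1 ∧ sec (Δ + 1) d ≤ w ∧ cn d 4 ≤ w ∧ card d ≤ Δ + 2 + w

def A5 (Δ w : ℕ) (d : Multiset ℕ) : Prop :=
  Δ ≤ sec (Δ + 1) d + 1 ∧ (w < thi (Δ + 1) d ∨ w < cn d 3 ∨ Δ + 2 + w < card d)

def A6 (Δ w : ℕ) (d : Multiset ℕ) : Prop :=
  count 2 d ≤ 1 ∧ (w < sec (Δ + 1) d ∨ w < cn d 4 ∨ Δ + 2 + w < card d)

/-! Classes at the level `Δ` -/

def F1 (Δ : ℕ) (d : Multiset ℕ) : Prop := sec Δ d + 1 ≤ Δ ∧ Δ + 2 ≤ card d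

def F2 (Δ : ℕ) (d : Multiset ℕ) : Prop := card d ≤ sec Δ d + 2 ∧ 4 ≤ count 3 d

def F3 (Δ w : ℕ) (d : Multiset ℕ) : Prop :=
  card d = Δ + 1 ∧ w + 3 < sec Δ d ∧ sec Δ d + 2 ≤ Δ

def F4 (Δ w : ℕ) (d : Multiset ℕ) : Prop := card d = Δ + 1 ∧ sec Δ d ≤ w + 3

def F5 (Δ : ℕ) (d : Multiset ℕ) : Prop := card d ≤ sec Δ d + 2 ∧ count 3 d ≤ 3

/-! Tools -/

theorem mem_Par {m : ℕ} {d : Multiset ℕ} : d ∈ Par m ↔ (∀ x ∈ d, 0 < x) ∧ d.sum = m := by
  simp only [Par, Finset.mem_image, Finset.mem_univ, true_and]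
  constructor
  · rintro ⟨π, rfl⟩
    exact ⟨fun _ h => π.parts_pos h, π.parts_sum⟩
  · rintro ⟨h1, h2⟩
    exact ⟨⟨d, fun h => h1 _ h, h2⟩, rfl⟩

theorem mem_Ple {m : ℕ} {d : Multiset ℕ} : d ∈ Ple m ↔ (∀ x ∈ d, 0 < x) ∧ d.sum ≤ m := by
  simp only [Ple, Finset.mem_biUnion, Finset.mem_range, mem_Par]
  constructor
  · rintro ⟨a, h1, h2, h3⟩
    exact ⟨h2, by omega⟩
  · rintro ⟨h1, h2⟩
    exact ⟨_, by omega, h1, rfl⟩

theorem mem_Lf {n Δ : ℕ} {d : Multiset ℕ} :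
    d ∈ Lf n Δ ↔ (∀ x ∈ d, 0 < x) ∧ d.sum = n ∧ d.sup = Δ ∧ FB d := by
  simp only [Lf, Finset.mem_filter, mem_Par, and_assoc]

theorem l2_eq (n Δ : ℕ) : l2 n Δ = (Lf n Δ).card := by
  rw [l2, ← Set.ncard_coe_finset]
  refine Set.ncard_congr (fun π _ => π.parts) ?_ ?_ ?_
  · intro π h
    exact Finset.mem_coe.2 (mem_Lf.2 ⟨fun _ h => π.parts_pos h, π.parts_sum, h.1, h.2⟩)
  · intro a b _ _ h
    exact Nat.Partition.ext h
  · intro d hd
    obtain ⟨h1, h2, h3, h4⟩ := mem_Lf.1 (Finset.mem_coe.1 hd)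
    exact ⟨⟨d, fun h => h1 _ h, h2⟩, ⟨h3, h4⟩, rfl⟩

theorem Pq_eq {Q m : ℕ} (h : m ≤ Q) : Pq Q m = P m := by
  rw [Pq, P, Finset.filter_true_of_mem]
  intro d hd x hx
  have := Multiset.le_sum_of_mem hx
  rw [(mem_Par.1 hd).2] at this
  omega

/-- comparison of two classes through a relation that can be decoded -/
theorem Lc_le {n a b : ℕ} {A F : Multiset ℕ → Prop} (R : Multiset ℕ → Multiset ℕ → Prop)
    (h1 : ∀ d ∈ Lf n a, A d → ∃ d' ∈ Lf n b, F d' ∧ R d d')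
    (h2 : ∀ d₁ d₂ d', R d₁ d' → R d₂ d' → d₁ = d₂) : Lc n a A ≤ Lc n b F := by
  classical
  unfold Lc
  refine Finset.card_le_card_of_forall_subsingleton R ?_ ?_
  · intro d hd
    obtain ⟨hd1, hd2⟩ := Finset.mem_filter.1 hd
    obtain ⟨d', h3, h4, h5⟩ := h1 d hd1 hd2
    exact ⟨d', Finset.mem_filter.2 ⟨h3, h4⟩, h5⟩
  · intro d' _ x hx y hy
    exact h2 x y d' hx.2 hy.2

@[simp] theorem Cs_zero (k : ℕ) : Cs 0 k = 0 := by simp [Cs]

@[simp] theorem Cs_cons (a : ℕ) (d : Multiset ℕ) (k : ℕ) :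
    Cs (a ::ₘ d) k = min k a + Cs d k := by simp [Cs]

@[simp] theorem Cs_add (d e : Multiset ℕ) (k : ℕ) : Cs (d + e) k = Cs d k + Cs e k := by
  simp [Cs]

@[simp] theorem Cs_replicate (m a k : ℕ) : Cs (replicate m a) k = m * min k a := by simp [Cs]

theorem Cs_of_le {d : Multiset ℕ} {k : ℕ} (h : ∀ x ∈ d, x ≤ k) : Cs d k = d.sum := by
  rw [Cs, Multiset.map_congr rfl (fun x hx => min_eq_right (h x hx)), map_id']

theorem Cs_of_ge {d : Multiset ℕ} {k : ℕ} (h : ∀ x ∈ d, k ≤ x) : Cs d k = card d * k := by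
  rw [Cs, Multiset.map_congr rfl (fun x hx => min_eq_left (h x hx))]
  simp

/-- lower bound when all parts are at least `j ≤ k` -/
theorem Cs_ge {d : Multiset ℕ} {j k : ℕ} (h : ∀ x ∈ d, j ≤ x) (hk : j ≤ k) :
    card d * j ≤ Cs d k := by
  have := Multiset.card_nsmul_le_sum (s := d.map (min k)) (a := j) (by
    intro x hx
    obtain ⟨y, hy, rfl⟩ := mem_map.1 hx
    exact le_min hk (h y hy))
  simpa [Cs] using this

theorem Cs_succ (d : Multiset ℕ) (k : ℕ) : Cs d (k + 1) = Cs d k + cn d (k + 1) := by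
  induction d using Multiset.induction_on with
  | empty => simp [cn]
  | cons a d ih =>
    simp only [Cs_cons, ih, cn, filter_cons]
    split_ifs with h <;> simp <;> omega

theorem sum_le_of_le {d : Multiset ℕ} {b : ℕ} (h : ∀ x ∈ d, x ≤ b) : d.sum ≤ card d * b := by
  simpa using Multiset.sum_le_card_nsmul d b h

/-- exchange lemma: a set of at least `card T` parts may be assumed to contain the top `T` -/
theorem exch {T R : Multiset ℕ} (h : ∀ x ∈ T, ∀ y ∈ R, y ≤ x) {K : Multiset ℕ}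
    (hK : K ≤ T + R) (hc : card T ≤ card K) :
    ∃ B ≤ R, B ≤ K ∧ card B + card T = card K ∧ K.sum ≤ T.sum + B.sum := by
  induction T using Multiset.induction_on generalizing K with
  | empty => exact ⟨K, by simpa using hK, le_rfl, by simp, by simp⟩
  | cons a T ih =>
    have h' : ∀ x ∈ T, ∀ y ∈ R, y ≤ x := fun x hx => h x (mem_cons_of_mem hx)
    rw [cons_add] at hK
    rw [card_cons] at hc
    by_cases ha : a ∈ K
    · obtain ⟨K', rfl⟩ := exists_cons_of_mem ha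
      obtain ⟨B, h1, h2, h3, h4⟩ := ih h' ((cons_le_cons_iff a).1 hK) (by simpa using hc)
      exact ⟨B, h1, h2.trans (le_cons_self _ _), by simp; omega, by simp; omega⟩
    · obtain ⟨B, h1, h2, h3, h4⟩ := ih h' ((le_cons_of_notMem ha).1 hK) (by omega)
      obtain ⟨x, hx⟩ := card_pos_iff_exists_mem.1 (show 0 < card B by omega)
      obtain ⟨B', rfl⟩ := exists_cons_of_mem hx
      have := h a (mem_cons_self _ _) x (mem_of_le h1 hx)
      exact ⟨B', (le_cons_self _ _).trans h1, (le_cons_self _ _).trans h2,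
        by simp at h3 ⊢; omega, by simp at h4 ⊢; omega⟩

theorem top_sum {T R : Multiset ℕ} (h : ∀ x ∈ T, ∀ y ∈ R, y ≤ x) {K : Multiset ℕ}
    (hK : K ≤ T + R) (hc : card T = card K) : K.sum ≤ T.sum := by
  obtain ⟨B, -, -, h3, h4⟩ := exch h hK hc.le
  have : B = 0 := card_eq_zero.1 (by omega)
  simpa [this] using h4

theorem le_of_le_add {K Z R : Multiset ℕ} (hK : K ≤ Z + R) (h : ∀ z ∈ Z, z ∉ K) : K ≤ R := by
  rw [le_iff_count] at hK ⊢
  intro a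
  have := hK a
  rw [count_add] at this
  by_cases ha : a ∈ Z
  · rw [count_eq_zero_of_notMem (h a ha)]; exact Nat.zero_le _
  · rwa [count_eq_zero_of_notMem ha, zero_add] at this

/-- transfer of a big set when the top parts `T'` and some small parts `Z'` are replaced -/
theorem transfer {T T' Z Z' R K' : Multiset ℕ} (hc : card T = card T')
    (hT : ∀ x ∈ T, ∀ y ∈ R, y ≤ x) (hT' : ∀ x ∈ T', ∀ y ∈ R, y ≤ x)
    (hK : K' ≤ T' + Z' + R) (hb : Big K') (ht : card T < card K')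
    (hZ : ∀ z ∈ Z, z ≤ card K') (hZ' : ∀ z ∈ Z', z < card K') :
    ∃ K ≤ T + Z + R, Big K ∧ card K = card K' ∧ K'.sum + T.sum ≤ K.sum + T'.sum ∧
      Cs (T' + Z' + R) (card K') + Z.sum = Cs (T + Z + R) (card K') + Z'.sum := by
  have h0 : K' ≤ T' + R := by
    refine le_of_le_add (Z := Z') (by rwa [add_left_comm, ← add_assoc]) ?_
    intro z hz hz'
    have := hb z hz'
    have := hZ' z hz
    omega
  obtain ⟨B, h1, h2, h3, h4⟩ := exch hT' h0 (by omega)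
  obtain ⟨x, hx⟩ := card_pos_iff_exists_mem.1 (show 0 < card B by omega)
  have hx1 := hb x (mem_of_le h2 hx)
  have hx2 := mem_of_le h1 hx
  have e1 : ∀ y ∈ T, card K' ≤ y := fun y hy => hx1.trans (hT y hy x hx2)
  have e2 : ∀ y ∈ T', card K' ≤ y := fun y hy => hx1.trans (hT' y hy x hx2)
  have e3 : card (T + B) = card K' := by rw [card_add]; omega
  refine ⟨T + B, ?_, ?_, e3, by rw [sum_add]; omega, ?_⟩
  · rw [add_assoc]
    exact add_le_add_right (h1.trans (le_add_left _ _)) _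
  · intro y hy
    rw [e3]
    rcases mem_add.1 hy with hy | hy
    · exact e1 y hy
    · exact hb y (mem_of_le h2 hy)
  · simp only [Cs_add, Cs_of_ge e1, Cs_of_ge e2, Cs_of_le hZ,
      Cs_of_le fun z hz => (hZ' z hz).le, hc]
    omega

theorem sup_cons_of {a : ℕ} {R : Multiset ℕ} (h : ∀ y ∈ R, y ≤ a) : (a ::ₘ R).sup = a := by
  rw [sup_cons]
  exact sup_eq_left.2 (Multiset.sup_le.2 h)

theorem exists_top {d : Multiset ℕ} (h : d ≠ 0) :
    ∃ R, d = d.sup ::ₘ R ∧ ∀ y ∈ R, y ≤ d.sup := by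
  obtain ⟨a, ha, hm⟩ := Finset.exists_max_image d.toFinset id (toFinset_nonempty.2 h)
  obtain ⟨R, rfl⟩ := exists_cons_of_mem (mem_toFinset.1 ha)
  have h1 : ∀ y ∈ R, y ≤ a := fun y hy => hm y (mem_toFinset.2 (mem_cons_of_mem hy))
  rw [sup_cons_of h1]
  exact ⟨R, rfl, h1⟩

theorem sec_cons {a b : ℕ} {R : Multiset ℕ} (h : ∀ y ∈ R, y ≤ b) :
    sec a (a ::ₘ b ::ₘ R) = b := by
  rw [sec, erase_cons_head, sup_cons_of h]

theorem thi_cons {a b e : ℕ} {R : Multiset ℕ} (hb : e ≤ b) (h : ∀ y ∈ R, y ≤ e) :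
    thi a (a ::ₘ b ::ₘ e ::ₘ R) = e := by
  have h1 : ∀ y ∈ e ::ₘ R, y ≤ b := by
    intro y hy
    rcases mem_cons.1 hy with rfl | hy
    · exact hb
    · exact (h y hy).trans hb
  rw [thi, sec_cons h1, erase_cons_head, erase_cons_head, sup_cons_of h]

/-- the three largest parts -/
theorem exists_top3 {d : Multiset ℕ} (h : 3 ≤ card d) :
    ∃ R, d = d.sup ::ₘ sec d.sup d ::ₘ thi d.sup d ::ₘ R ∧ sec d.sup d ≤ d.sup ∧
      thi d.sup d ≤ sec d.sup d ∧ ∀ y ∈ R, y ≤ thi d.sup d := by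
  obtain ⟨R₁, e1, h1⟩ := exists_top (d := d) (by rintro rfl; simp at h)
  generalize d.sup = a at e1 h1 ⊢
  subst e1
  obtain ⟨R₂, e2, h2⟩ := exists_top (d := R₁) (by rintro rfl; simp at h)
  generalize R₁.sup = b at e2 h2
  subst e2
  obtain ⟨R₃, e3, h3⟩ := exists_top (d := R₂) (by rintro rfl; simp at h)
  generalize R₂.sup = e at e3 h3
  subst e3
  have hb := h2 e (mem_cons_self _ _)
  rw [sec_cons h2, thi_cons hb h3]
  exact ⟨R₃, rfl, h1 b (mem_cons_self _ _), hb, h3⟩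

/-- the top part is determined -/
theorem cons_unique {a a' : ℕ} {R R' : Multiset ℕ} (h : ∀ y ∈ R, y ≤ a) (h' : ∀ y ∈ R', y ≤ a')
    (e : a ::ₘ R = a' ::ₘ R') : a = a' ∧ R = R' := by
  have : a = a' := by rw [← sup_cons_of h, e, sup_cons_of h']
  subst this
  exact ⟨rfl, (cons_inj_right a).1 e⟩

theorem EG.lt_card {d : Multiset ℕ} (h : EG d) {x : ℕ} (hx : x ∈ d) : x < card d := by
  rcases Nat.eq_zero_or_pos x with rfl | h0
  · exact card_pos_iff_exists_mem.2 ⟨0, hx⟩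
  · have h1 := h {x} (singleton_le.2 hx) (by intro y hy; simp at hy ⊢; omega)
    have h2 : Cs d 1 ≤ card d := by
      have := sum_le_of_le (d := d.map (min 1)) (b := 1) (by
        intro y hy
        obtain ⟨z, -, rfl⟩ := mem_map.1 hy
        exact min_le_left _ _)
      simpa [Cs] using this
    simp at h1
    omega

/-- split off `m` copies of `a` -/
theorem exists_replicate {d : Multiset ℕ} {m a : ℕ} (h : m ≤ count a d) :
    ∃ R, d = replicate m a + R :=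
  Multiset.le_iff_exists_add.1 (le_count_iff_replicate_le.1 h)

/-! Statements about graphs -/

/-- necessity of the inequalities -/
def S_nec : Prop := ∀ d : Multiset ℕ, Gr d → Even d.sum ∧ EG d

/-- moving an edge, adding an isolated vertex, adding a dominating vertex, the empty graph -/
def S_ops : Prop :=
  (∀ (a b : ℕ) (R : Multiset ℕ), b + 1 ≤ a → Gr ((a + 1) ::ₘ b ::ₘ R) → Gr (a ::ₘ (b + 1) ::ₘ R)) ∧
  (∀ d : Multiset ℕ, Gr d → Gr (0 ::ₘ d)) ∧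
  (∀ d : Multiset ℕ, Gr d → Gr (card d ::ₘ d.map (· + 1))) ∧ Gr 0

/-- sufficiency of the inequalities -/
def S_suf : Prop := ∀ d : Multiset ℕ, Even d.sum → EG d → Gr d

/-- criterion by closed sets -/
def S_cut : Prop := ∀ (V : Type) [Fintype V] [Nonempty V] (G : SimpleGraph V),
  (∀ v, 2 ≤ (G.neighborSet v).ncard) →
  (∀ (z : V) (A : Finset V), z ∉ A → A.Nonempty → (∀ a ∈ A, ∀ x, G.Adj a x → x ∈ A ∨ x = z) →
    ∀ b, b ≠ z → b ∈ A) → Biconn G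

def S_tight : Prop := ∀ d : Multiset ℕ, Gr d → (∀ x ∈ d, 2 ≤ x) → Tight d → FB d

def S_two : Prop := ∀ (a b : ℕ) (R : Multiset ℕ), Gr (a ::ₘ b ::ₘ R) →
  (∀ x ∈ a ::ₘ b ::ₘ R, 2 ≤ x) → card R ≤ a → card R ≤ b → FB (a ::ₘ b ::ₘ R)

def S_dense : Prop := ∀ (Δ : ℕ) (d : Multiset ℕ), Gr d → 3 ≤ Δ → (∀ x ∈ d, Δ ≤ x + 1 ∧ x ≤ Δ) →
  card d ≤ 2 * Δ → (card d - 1) * Δ < d.sum → FB d

def S_min : Prop := ∀ d : Multiset ℕ, FB d → 3 ≤ card d ∧ ∀ x ∈ d, 2 ≤ x ∧ x < card d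

def S_top : Prop := ∀ d : Multiset ℕ, FB d → ∀ x ∈ d, 4 * x ≤ d.sum + 2

/-- gluing two graphs at a vertex -/
def S_glue : Prop := ∀ (a₁ a₂ : ℕ) (R₁ R₂ : Multiset ℕ), Gr (a₁ ::ₘ R₁) → Gr (a₂ ::ₘ R₂) →
  R₁ ≠ 0 → R₂ ≠ 0 → ¬ FB ((a₁ + a₂) ::ₘ (R₁ + R₂))

/-- two dominating vertices -/
def S_join : Prop := ∀ d : Multiset ℕ, Gr d → d ≠ 0 →
  FB ((card d + 1) ::ₘ (card d + 1) ::ₘ d.map (· + 2))

/-! Statements about degree sequences -/

def S_n2 : Prop := ∀ (a b : ℕ) (R : Multiset ℕ), FB (a ::ₘ b ::ₘ (replicate 2 2 + R)) → 4 ≤ a →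
  b ≤ a → (∀ y ∈ R, y ≤ b ∧ y + 2 ≤ a) → b ≤ card R + 1 →
  Tight (a ::ₘ b ::ₘ (replicate 2 2 + R))

def S_n3 : Prop := ∀ (a b : ℕ) (R : Multiset ℕ), FB (a ::ₘ (replicate 3 3 + R)) → 5 ≤ a →
  b + 3 ≤ a → (∀ y ∈ R, y ≤ b) → 2 * b + 1 ≤ card R →
  ∃ K ≤ a ::ₘ (replicate 3 3 + R), Big K ∧ 4 ≤ card K ∧
    Cs (a ::ₘ (replicate 3 3 + R)) (card K) ≤ K.sum + card K + 5

def S_cover : Prop := ∀ (n Δ : ℕ) (d : Multiset ℕ), 3 ≤ Δ → d ∈ Lf n (Δ + 1) →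
  sec (Δ + 1) d + 2 ≤ Δ → ¬ Tight d → count 2 d ≤ 1

def S_A1 : Prop := ∀ n Δ : ℕ, Lc n (Δ + 1) (A1 Δ) ≤ Lc n Δ (F1 Δ)

def S_A2 : Prop := ∀ n Δ w : ℕ, 13 * w + 9 ≤ Δ → Lc n (Δ + 1) (A2 Δ w) ≤ Lc n Δ (F2 Δ)

def S_A3 : Prop := ∀ n Δ w : ℕ, 13 * w + 9 ≤ Δ → Lc n (Δ + 1) (A3 Δ w) ≤ Lc n Δ (F3 Δ w)

def S_A4 : Prop := ∀ n Δ w : ℕ, 13 * w + 9 ≤ Δ → Lc n (Δ + 1) (A4 Δ w) ≤ Lc n Δ (F4 Δ w)

def S_A5 : Prop := ∀ n Δ w : ℕ, 2 ≤ w →
  Lc n (Δ + 1) (A5 Δ w) ≤ 3 * (Out (n - 4 * Δ) (w - 2)).card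

def S_A6 : Prop := ∀ n Δ w : ℕ, 3 ≤ w → 2 ≤ Δ →
  Lc n (Δ + 1) (A6 Δ w) ≤ 2 * (Out (n - 4 * Δ) (w - 2)).card

def S_F5 : Prop := ∀ n Δ q : ℕ, 4 ≤ Δ → 4 * Δ ≤ n + 2 → q + 1 ≤ Δ →
  (Tg (n + 2 - 4 * Δ) q).card ≤ Lc n Δ (F5 Δ)

def S_path : Prop := ∀ M q : ℕ, Even M → M / 2 + 1 ≤ q → (Tg M q).Nonempty

/-- nearly regular sequences -/
def S_near : Prop := ∀ p q t : ℕ, t ≤ p → q + 2 ≤ p → Even (p * q + t) →
  Gr (replicate t (q + 1) + replicate (p - t) q)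

def S_split : Prop := ∀ (a : ℕ) (d : Multiset ℕ), FB d → (∀ x ∈ d, x ≤ a) →
  d.sum ≤ 2 * (a + 1) ^ 2

def S_fill : Prop := ∀ n Δ : ℕ, Even n → 3 ≤ Δ → 4 * Δ ≤ n + 2 → n ≤ 2 * Δ ^ 2 →
  (Lf n Δ).Nonempty

/-! Statements about the number of partitions -/

def S_mono : Prop := ∀ Q m m' : ℕ, 1 ≤ Q → m ≤ m' → Pq Q m ≤ Pq Q m'

def S_decay : Prop := ∀ Q M J t : ℕ, 1 ≤ J → J ≤ Q → 4 * M ≤ J ^ 2 → t * J ≤ M →
  2 ^ t * Pq Q (M - t * J) ≤ Pq Q M

def S_ratio : Prop := ∀ Q m J j : ℕ, 1 ≤ J → J ≤ Q → 4 * m ≤ J ^ 2 → j ≤ J → 2 * j ^ 2 ≤ m →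
  m * Pq Q m ≤ 44 * J ^ 2 * Pq Q (m - j)

def S_big : Prop := ∀ Q h m : ℕ, 1 ≤ Q → 2 * h * Q ≤ m →
  Q.choose h * Pq Q (m - 2 * h * Q) ≤ P m

def S_out : Prop := ∀ N w : ℕ,
  (w ≤ N → (Out N w).card ≤ 3 * (N + 1) ^ 2 * P (N - w)) ∧ (N < w → Out N w = ∅)

def S_surj : Prop := ∀ d : Multiset ℕ, (∀ x ∈ d, 0 < x) → ∃ D r c, IsTri D r c ∧ Psi D r c = d

def S_inj : Prop := ∀ D r c D' r' c', IsTri D r c → IsTri D' r' c' → Psi D r c = Psi D' r' c' →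
  D = D' ∧ r = r' ∧ c = c'

def S_psi : Prop := ∀ D r c, IsTri D r c → (∀ x ∈ Psi D r c, 0 < x) ∧
  (Psi D r c).sum = mass D r c ∧ card (Psi D r c) = D + c 0 ∧
  (2 ≤ D → count 1 (Psi D r c) = c 0 - c 1) ∧ ((∀ j < D, r j < c j) → EG (Psi D r c))

def S_phi : Prop := ∀ M : ℕ, P M ≤ (Neg M).card

def S_tg : Prop := ∀ M v : ℕ, Even M → 6 * v ≤ M →
  2 * (Out (M - 3 * v) v).card ≤ P (M - 3 * v) →
  P (M - 3 * v) ≤ 2 * v ^ 2 * (Tg M (3 * v)).card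

end Pool.Agent.MP_dbdb85_co
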