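import Pool.Agent.MP_dbdb85_co.Defs

/-! Assembly of the right tail, the support and the position of the peak. -/

namespace Pool.Agent.MP_dbdb85_co

open Multiset

theorem Lf_le_Main (hc : S_cover) {n Δ w : ℕ} (hΔ : 3 ≤ Δ) :
    (Lf n (Δ + 1)).card ≤ Lc n (Δ + 1) (A1 Δ) + Lc n (Δ + 1) (A2 Δ w) + Lc n (Δ + 1) (A3 Δ w) +
      Lc n (Δ + 1) (A4 Δ w) + Lc n (Δ + 1) (A5 Δ w) + Lc n (Δ + 1) (A6 Δ w) := by
  classical
  simp only [Lc, Finset.card_filter, ← Finset.sum_add_distrib]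
  rw [Finset.card_eq_sum_ones]
  refine Finset.sum_le_sum fun d hd => ?_
  have h := hc n Δ d hΔ hd
  have : A1 Δ d ∨ A2 Δ w d ∨ A3 Δ w d ∨ A4 Δ w d ∨ A5 Δ w d ∨ A6 Δ w d := by
    unfold A1 A2 A3 A4 A5 A6
    by_cases ht : Tight d
    · simp only [ht, not_true, false_and, and_true, false_or]
      omega
    · have h' : Δ ≤ sec (Δ + 1) d + 1 ∨ count 2 d ≤ 1 := by
        by_cases h0 : sec (Δ + 1) d + 2 ≤ Δ
        · exact Or.inr (h h0 ht)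
        · omega
      simp only [ht, not_false_iff, true_and, and_false, false_or]
      omega
  rcases this with h | h | h | h | h | h <;> simp only [h, if_true] <;> omega

theorem Lf_ge_Main {n Δ w : ℕ} (hΔ : w + 5 ≤ Δ) :
    Lc n Δ (F1 Δ) + Lc n Δ (F2 Δ) + Lc n Δ (F3 Δ w) + Lc n Δ (F4 Δ w) + Lc n Δ (F5 Δ) ≤
      (Lf n Δ).card := by
  classical
  simp only [Lc, Finset.card_filter, ← Finset.sum_add_distrib]
  rw [Finset.card_eq_sum_ones]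
  refine Finset.sum_le_sum fun d _ => ?_
  unfold F1 F2 F3 F4 F5
  split_ifs <;> omega

theorem P_pos_Main (m : ℕ) : 0 < P m :=
  Finset.card_pos.2 ⟨replicate m 1, mem_Par.2 ⟨fun x hx => by
    rw [eq_of_mem_replicate hx]; exact one_pos, by simp⟩⟩

theorem P_mono_Main (hm : S_mono) {a b : ℕ} (h : a ≤ b) : P a ≤ P b := by
  rw [← Pq_eq (Q := b + 1) (by omega), ← Pq_eq (Q := b + 1) (by omega)]
  exact hm _ _ _ (by omega) h

theorem P_decay_Main (hd : S_decay) {M J t : ℕ} (hJ : 1 ≤ J) (h4 : 4 * M ≤ J ^ 2)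
    (ht : t * J ≤ M) : 2 ^ t * P (M - t * J) ≤ P M := by
  rw [← Pq_eq (Q := M + J) (by omega), ← Pq_eq (Q := M + J) (by omega)]
  exact hd _ _ _ _ hJ (by omega) h4 ht

/-- many graphical partitions with few parts and few ones -/
theorem Tg_ge_Main (hd : S_decay) (ho : S_out) (ht : S_tg) {n l J M : ℕ} (hl : n + 1 ≤ 2 ^ l)
    (hJ : 1 ≤ J) (h4 : 4 * n ≤ J ^ 2) (hM : Even M) (h6 : 6 * ((2 * l + 3) * J) ≤ M)
    (hn : M - 3 * ((2 * l + 3) * J) ≤ n) :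
    P (M - 3 * ((2 * l + 3) * J)) ≤
      2 * ((2 * l + 3) * J) ^ 2 * (Tg M (3 * ((2 * l + 3) * J))).card := by
  set v := (2 * l + 3) * J with hv
  refine ht M v hM h6 ?_
  have h1 := (ho (M - 3 * v) v).1 (by omega)
  have h2 := P_decay_Main hd (M := M - 3 * v) (t := 2 * l + 3) hJ (by omega) (by omega)
  rw [← hv] at h2
  have h3 : (M - 3 * v + 1) ^ 2 ≤ (2 ^ l) ^ 2 := Nat.pow_le_pow_left (by omega) 2
  have h5 : 2 ^ (2 * l + 3) = 8 * (2 ^ l) ^ 2 := by ring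
  rw [h5] at h2
  nlinarith [Nat.zero_le (P (M - 3 * v - v))]

theorem tail_nat (hn : S_nec) (htop : S_top) (hc : S_cover) (h1 : S_A1) (h2 : S_A2) (h3 : S_A3)
    (h4 : S_A4) (h5 : S_A5) (h6 : S_A6) (h7 : S_F5) (hp : S_path) (hm : S_mono) (hd : S_decay)
    (ho : S_out) (ht : S_tg) {n Δ l J : ℕ} (hl : n + 1 ≤ 2 ^ l) (hJ : 1 ≤ J)
    (hJ4 : 4 * n ≤ J ^ 2) (hΔ : 78 * ((2 * l + 3) * J) + 35 ≤ Δ)
    (hne : (Lf n (Δ + 1)).Nonempty) : (Lf n (Δ + 1)).card < (Lf n Δ).card := by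
  set v := (2 * l + 3) * J with hv
  have hv1 : 1 ≤ v := Nat.mul_pos (by omega) hJ
  obtain ⟨d, hd0⟩ := hne
  obtain ⟨-, hs, hsup, hfb⟩ := mem_Lf.1 hd0
  have hev : Even n := hs ▸ (hn d hfb.1).1
  have hbd : 4 * (Δ + 1) ≤ n + 2 := by
    obtain ⟨R, e, -⟩ := exists_top (d := d) (by rintro rfl; simp at hsup)
    rw [hsup] at e
    have := htop d hfb (Δ + 1) (e ▸ mem_cons_self _ _)
    omega
  have hevM : Even (n + 2 - 4 * Δ) := by
    obtain ⟨k, hk⟩ := hev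
    exact ⟨k + 1 - 2 * Δ, by omega⟩
  have a0 := Lf_le_Main hc (n := n) (Δ := Δ) (w := 6 * v + 2) (by omega)
  have a1 := h1 n Δ
  have a2 := h2 n Δ (6 * v + 2) (by omega)
  have a3 := h3 n Δ (6 * v + 2) (by omega)
  have a4 := h4 n Δ (6 * v + 2) (by omega)
  have a5 := h5 n Δ (6 * v + 2) (by omega)
  have a6 := h6 n Δ (6 * v + 2) (by omega) (by omega)
  have a7 := Lf_ge_Main (n := n) (Δ := Δ) (w := 6 * v + 2) (by omega)
  rw [Nat.add_sub_cancel] at a5 a6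
  suffices h : 5 * (Out (n - 4 * Δ) (6 * v)).card < Lc n Δ (F5 Δ) by omega
  by_cases hN : n - 4 * Δ < 6 * v
  · rw [(ho _ _).2 hN]
    have b1 := h7 n Δ (Δ - 1) (by omega) (by omega) (by omega)
    have b2 := Finset.card_pos.2 (hp (n + 2 - 4 * Δ) (Δ - 1) hevM (by omega))
    simp only [Finset.card_empty]
    omega
  · have b1 := h7 n Δ (3 * v) (by omega) (by omega) (by omega)
    have b2 := Tg_ge_Main hd ho ht hl hJ hJ4 hevM (by omega) (by omega)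
    rw [← hv] at b2
    have b3 := (ho (n - 4 * Δ) (6 * v)).1 (by omega)
    have b4 := P_decay_Main hd (M := n + 2 - 4 * Δ - 3 * v) (t := 3 * (2 * l + 3)) hJ (by omega)
      (by rw [mul_assoc, ← hv]; omega)
    rw [mul_assoc 3, ← hv] at b4
    have b5 : P (n - 4 * Δ - 6 * v) ≤ P (n + 2 - 4 * Δ - 3 * v - 3 * v) :=
      P_mono_Main hm (by omega)
    have b6 := P_pos_Main (n + 2 - 4 * Δ - 3 * v - 3 * v)
    have b7 : (n - 4 * Δ + 1) ^ 2 ≤ (2 ^ l) ^ 2 := Nat.pow_le_pow_left (by omega) 2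
    have b8 : v ^ 2 ≤ (2 ^ l) ^ 2 := Nat.pow_le_pow_left (by omega) 2
    have b9 : 2 ^ (3 * (2 * l + 3)) = 512 * ((2 ^ l) ^ 2) ^ 3 := by ring
    have b10 : 1 ≤ (2 ^ l) ^ 2 := Nat.one_le_pow _ _ (by positivity)
    rw [b9] at b4
    generalize (2 ^ l) ^ 2 = X at b4 b7 b8 b10
    generalize P (n + 2 - 4 * Δ - 3 * v - 3 * v) = p at b4 b5 b6
    generalize (Out (n - 4 * Δ) (6 * v)).card = o at b3 ⊢
    generalize (Tg (n + 2 - 4 * Δ) (3 * v)).card = g at b1 b2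
    have c1 : o ≤ 3 * X * p := b3.trans (by gcongr)
    have c2 : 512 * X ^ 3 * p ≤ 2 * X * g := b4.trans (b2.trans (by gcongr))
    have c3 : 256 * X ^ 2 * p ≤ g :=
      Nat.le_of_mul_le_mul_left (c := 2 * X) (by nlinarith) (by omega)
    have c4 : X * p ≤ X ^ 2 * p := by gcongr; nlinarith
    have c5 : 0 < X * p := by positivity
    rw [mul_assoc] at c1 c3
    omega

theorem support_nat (hn : S_nec) (hmin : S_min) (htop : S_top) (hs : S_split) (hf : S_fill)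
    {n a Δ : ℕ} (ha : (Lf n a).Nonempty) (h : a ≤ Δ) :
    (Lf n Δ).Nonempty ↔ 4 * Δ ≤ n + 2 := by
  have key : ∀ b, (Lf n b).Nonempty → 4 * b ≤ n + 2 ∧ 2 ≤ b ∧ Even n ∧ n ≤ 2 * (b + 1) ^ 2 := by
    rintro b ⟨d, hd⟩
    obtain ⟨-, hsum, hsup, hfb⟩ := mem_Lf.1 hd
    obtain ⟨h3, hm⟩ := hmin d hfb
    obtain ⟨R, e, -⟩ := exists_top (d := d) (by rintro rfl; simp at h3)
    rw [hsup] at e
    have hb : b ∈ d := e ▸ mem_cons_self _ _
    refine ⟨hsum ▸ htop d hfb b hb, (hm b hb).1, hsum ▸ (hn d hfb.1).1, ?_⟩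
    exact hsum ▸ hs b d hfb fun x hx => hsup ▸ Multiset.le_sup hx
  refine ⟨fun hΔ => (key Δ hΔ).1, fun hΔ => ?_⟩
  rcases eq_or_lt_of_le h with rfl | hlt
  · exact ha
  · obtain ⟨-, h2, h3, h4⟩ := key a ha
    have : (a + 1) ^ 2 ≤ Δ ^ 2 := Nat.pow_le_pow_left hlt 2
    exact hf n Δ h3 (by omega) hΔ (by omega)

end Pool.Agent.MP_dbdb85_co
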