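import Pool.Agent.MP_dbdb85_co.Defs

namespace Pool.Agent.MP_dbdb85_co

open Multiset

theorem sum_eq_Ratio {m : ℕ} {d : Multiset ℕ} (hd : d ∈ Par m) :
    m ≤ ∑ i ∈ Finset.Icc 1 m, ∑ r ∈ Finset.Icc 1 m, if r ≤ count i d then i else 0 := by
  classical
  obtain ⟨h1, h2⟩ := mem_Par.1 hd
  have hc : card d ≤ m := by
    have := Multiset.card_nsmul_le_sum (s := d) (a := 1) (fun x hx => h1 x hx)
    simpa [h2] using this
  have hs : d.toFinset ⊆ Finset.Icc 1 m := by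
    intro x hx
    have hx' := mem_toFinset.1 hx
    have := Multiset.le_sum_of_mem hx'
    exact Finset.mem_Icc.2 ⟨h1 x hx', by omega⟩
  have e : d.sum = ∑ i ∈ Finset.Icc 1 m, count i d * i := by
    have := Finset.sum_multiset_count_of_subset d (Finset.Icc 1 m) hs
    simpa [smul_eq_mul] using this
  calc m = ∑ i ∈ Finset.Icc 1 m, count i d * i := by rw [← e, h2]
    _ ≤ _ := by
      refine Finset.sum_le_sum fun i _ => ?_
      rw [← Finset.sum_filter, Finset.sum_const, smul_eq_mul]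
      refine Nat.mul_le_mul_right _ ?_
      have : Finset.Icc 1 (count i d) ⊆ (Finset.Icc 1 m).filter (fun r => r ≤ count i d) := by
        intro r hr
        obtain ⟨a, b⟩ := Finset.mem_Icc.1 hr
        have := count_le_card i d
        exact Finset.mem_filter.2 ⟨Finset.mem_Icc.2 ⟨a, by omega⟩, b⟩
      simpa using Finset.card_le_card this

theorem fib_Ratio (Q m i r : ℕ) :
    (((Par m).filter (fun d => ∀ x ∈ d, x ≤ Q)).filter (fun d => r ≤ count i d)).card ≤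
      if i * r ≤ m then Pq Q (m - i * r) else 0 := by
  classical
  have key : ∀ d ∈ ((Par m).filter (fun d => ∀ x ∈ d, x ≤ Q)).filter (fun d => r ≤ count i d),
      ∃ R, d = replicate r i + R ∧ (∀ x ∈ R, 0 < x) ∧ i * r + R.sum = m ∧ ∀ x ∈ R, x ≤ Q := by
    intro d hd
    obtain ⟨hd1, hd2⟩ := Finset.mem_filter.1 hd
    obtain ⟨hd3, hd4⟩ := Finset.mem_filter.1 hd1
    obtain ⟨h1, h2⟩ := mem_Par.1 hd3
    obtain ⟨R, rfl⟩ := exists_replicate hd2
    refine ⟨R, rfl, fun x hx => h1 x (mem_add.2 (Or.inr hx)), ?_,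
      fun x hx => hd4 x (mem_add.2 (Or.inr hx))⟩
    rw [sum_add, sum_replicate, smul_eq_mul, mul_comm] at h2
    exact h2
  split_ifs with h
  · rw [Pq]
    refine Finset.card_le_card_of_forall_subsingleton (fun d R => d = replicate r i + R) ?_ ?_
    · intro d hd
      obtain ⟨R, e, h1, h2, h3⟩ := key d hd
      exact ⟨R, Finset.mem_filter.2 ⟨mem_Par.2 ⟨h1, by omega⟩, h3⟩, e⟩
    · intro R _ x hx y hy
      exact hx.2.trans hy.2.symm
  · rw [Nat.le_zero, Finset.card_eq_zero, Finset.eq_empty_iff_forall_notMem]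
    intro d hd
    obtain ⟨R, -, -, h2, -⟩ := key d hd
    omega

theorem first_Ratio (Q m : ℕ) : m * Pq Q m ≤
    ∑ i ∈ Finset.Icc 1 m, ∑ r ∈ Finset.Icc 1 m,
      i * (if i * r ≤ m then Pq Q (m - i * r) else 0) := by
  classical
  calc m * Pq Q m = ∑ _d ∈ (Par m).filter (fun d => ∀ x ∈ d, x ≤ Q), m := by
        rw [Finset.sum_const, smul_eq_mul, Pq, mul_comm]
    _ ≤ ∑ d ∈ (Par m).filter (fun d => ∀ x ∈ d, x ≤ Q),
          ∑ i ∈ Finset.Icc 1 m, ∑ r ∈ Finset.Icc 1 m, if r ≤ count i d then i else 0 :=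
        Finset.sum_le_sum fun d hd => sum_eq_Ratio (Finset.mem_filter.1 hd).1
    _ = ∑ i ∈ Finset.Icc 1 m, ∑ r ∈ Finset.Icc 1 m,
          ∑ d ∈ (Par m).filter (fun d => ∀ x ∈ d, x ≤ Q), if r ≤ count i d then i else 0 := by
        rw [Finset.sum_comm]
        exact Finset.sum_congr rfl fun i _ => Finset.sum_comm
    _ ≤ _ := by
        refine Finset.sum_le_sum fun i _ => Finset.sum_le_sum fun r _ => ?_
        rw [← Finset.sum_filter, Finset.sum_const, smul_eq_mul, mul_comm]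
        exact Nat.mul_le_mul_left _ (fib_Ratio Q m i r)

theorem pairs_Ratio (m X : ℕ) :
    (∑ i ∈ Finset.Icc 1 m, ∑ r ∈ Finset.Icc 1 m, if i * r ≤ X then i else 0) ≤ X ^ 2 := by
  classical
  calc (∑ i ∈ Finset.Icc 1 m, ∑ r ∈ Finset.Icc 1 m, if i * r ≤ X then i else 0)
      ≤ ∑ i ∈ Finset.Icc 1 m, if i ≤ X then X else 0 := by
        refine Finset.sum_le_sum fun i hi => ?_
        have hi1 := (Finset.mem_Icc.1 hi).1
        rw [← Finset.sum_filter, Finset.sum_const, smul_eq_mul]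
        have hs : (Finset.Icc 1 m).filter (fun r => i * r ≤ X) ⊆ Finset.Icc 1 (X / i) := by
          intro r hr
          obtain ⟨a, b⟩ := Finset.mem_filter.1 hr
          refine Finset.mem_Icc.2 ⟨(Finset.mem_Icc.1 a).1, ?_⟩
          rw [Nat.le_div_iff_mul_le hi1, mul_comm]
          exact b
        have hc := Finset.card_le_card hs
        rw [Nat.card_Icc, Nat.add_sub_cancel] at hc
        have h2 := Nat.mul_le_mul_right i hc
        split_ifs with h
        · exact h2.trans (Nat.div_mul_le_self X i)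
        · rw [Nat.div_eq_of_lt (show X < i by omega)] at h2
          simpa using h2
    _ ≤ X ^ 2 := by
        rw [← Finset.sum_filter, Finset.sum_const, smul_eq_mul, sq]
        refine Nat.mul_le_mul_right _ ?_
        have hs : (Finset.Icc 1 m).filter (fun i => i ≤ X) ⊆ Finset.Icc 1 X := by
          intro r hr
          obtain ⟨a, b⟩ := Finset.mem_filter.1 hr
          exact Finset.mem_Icc.2 ⟨(Finset.mem_Icc.1 a).1, b⟩
        simpa using Finset.card_le_card hs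

theorem geo_Ratio (T : ℕ) : ∑ t ∈ Finset.range T, ((t : ℝ) + 2) ^ 2 / 2 ^ t =
    22 - (2 * (T : ℝ) ^ 2 + 12 * T + 22) / 2 ^ T := by
  induction T with
  | zero => simp
  | succ T ih =>
    rw [Finset.sum_range_succ, ih, pow_succ (2 : ℝ) T]
    push_cast
    field_simp
    ring

theorem point_Ratio (h : S_mono) (hd : S_decay) {Q m J j : ℕ} (h1 : 1 ≤ J) (h2 : J ≤ Q)
    (h3 : 4 * m ≤ J ^ 2) (h4 : j ≤ J) (i p : ℕ) :
    ((i * (if p ≤ m then Pq Q (m - p) else 0) : ℕ) : ℝ) ≤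
      ((if p ≤ j then i else 0 : ℕ) : ℝ) * Pq Q m +
        ∑ t ∈ Finset.range (m + 1),
          ((if p ≤ (t + 2) * J then i else 0 : ℕ) : ℝ) * ((Pq Q (m - j) : ℝ) / 2 ^ t) := by
  have hQ : 1 ≤ Q := h1.trans h2
  have hn : ∀ t ∈ Finset.range (m + 1), (0 : ℝ) ≤
      ((if p ≤ (t + 2) * J then i else 0 : ℕ) : ℝ) * ((Pq Q (m - j) : ℝ) / 2 ^ t) :=
    fun t _ => by positivity
  have hS := Finset.sum_nonneg hn
  by_cases hp : p ≤ m
  · rw [if_pos hp]
    by_cases hj : p ≤ j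
    · rw [if_pos hj]
      have : (Pq Q (m - p) : ℝ) ≤ Pq Q m := by exact_mod_cast h Q _ _ hQ (Nat.sub_le m p)
      have := mul_le_mul_of_nonneg_left this (Nat.cast_nonneg (α := ℝ) i)
      push_cast
      push_cast at hS
      linarith
    · rw [if_neg hj]
      obtain ⟨t, ht⟩ : ∃ t, t = (p - j - 1) / J := ⟨_, rfl⟩
      have a1 : t * J ≤ p - j - 1 := ht ▸ Nat.div_mul_le_self _ _
      have a2 : p - j - 1 < (t + 1) * J := by
        rw [ht, ← Nat.div_lt_iff_lt_mul h1]; omega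
      have a3 : t ≤ t * J := Nat.le_mul_of_pos_right _ h1
      have a4 : p ≤ (t + 2) * J := by
        have : (t + 2) * J = (t + 1) * J + J := by ring
        omega
      have a5 := hd Q (m - j) J t h1 h2 (by omega) (by omega)
      have a6 := h Q (m - p) (m - j - t * J) hQ (by omega)
      have a7 : (Pq Q (m - p) : ℝ) ≤ (Pq Q (m - j) : ℝ) / 2 ^ t := by
        rw [le_div_iff₀ (by positivity)]
        have : Pq Q (m - p) * 2 ^ t ≤ Pq Q (m - j) := by
          rw [mul_comm]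
          exact (Nat.mul_le_mul_left _ a6).trans a5
        exact_mod_cast this
      have a8 := Finset.single_le_sum hn (Finset.mem_range.2 (show t < m + 1 by omega))
      rw [if_pos a4] at a8
      have := mul_le_mul_of_nonneg_left a7 (Nat.cast_nonneg (α := ℝ) i)
      rw [Nat.cast_mul, Nat.cast_zero, zero_mul, zero_add]
      exact this.trans a8
  · rw [if_neg hp, mul_zero, Nat.cast_zero]
    exact add_nonneg (by positivity) hS

theorem s_ratio (h : S_mono) (hd : S_decay) : S_ratio := by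
  intro Q m J j h1 h2 h3 h4 h5
  have e1 : ((m * Pq Q m : ℕ) : ℝ) ≤ ∑ i ∈ Finset.Icc 1 m, ∑ r ∈ Finset.Icc 1 m,
      ((i * (if i * r ≤ m then Pq Q (m - i * r) else 0) : ℕ) : ℝ) := by
    exact_mod_cast first_Ratio Q m
  have pr : ∀ X : ℕ, (∑ i ∈ Finset.Icc 1 m, ∑ r ∈ Finset.Icc 1 m,
      ((if i * r ≤ X then i else 0 : ℕ) : ℝ)) ≤ (X : ℝ) ^ 2 := by
    intro X
    exact_mod_cast pairs_Ratio m X
  have e2 := Finset.sum_le_sum fun i (_ : i ∈ Finset.Icc 1 m) =>
    Finset.sum_le_sum fun r (_ : r ∈ Finset.Icc 1 m) => point_Ratio h hd h1 h2 h3 h4 i (i * r)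
  have e3 : (∑ i ∈ Finset.Icc 1 m, ∑ r ∈ Finset.Icc 1 m,
      (((if i * r ≤ j then i else 0 : ℕ) : ℝ) * Pq Q m +
        ∑ t ∈ Finset.range (m + 1),
          ((if i * r ≤ (t + 2) * J then i else 0 : ℕ) : ℝ) * ((Pq Q (m - j) : ℝ) / 2 ^ t))) =
      (∑ i ∈ Finset.Icc 1 m, ∑ r ∈ Finset.Icc 1 m,
        ((if i * r ≤ j then i else 0 : ℕ) : ℝ)) * Pq Q m +
      ∑ t ∈ Finset.range (m + 1), (∑ i ∈ Finset.Icc 1 m, ∑ r ∈ Finset.Icc 1 m,
        ((if i * r ≤ (t + 2) * J then i else 0 : ℕ) : ℝ)) * ((Pq Q (m - j) : ℝ) / 2 ^ t) := by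
    simp only [Finset.sum_add_distrib, Finset.sum_mul]
    congr 1
    rw [Finset.sum_comm (s := Finset.range (m + 1))]
    exact Finset.sum_congr rfl fun i _ => Finset.sum_comm
  have e4 : ∑ t ∈ Finset.range (m + 1), (∑ i ∈ Finset.Icc 1 m, ∑ r ∈ Finset.Icc 1 m,
        ((if i * r ≤ (t + 2) * J then i else 0 : ℕ) : ℝ)) * ((Pq Q (m - j) : ℝ) / 2 ^ t) ≤
      ∑ t ∈ Finset.range (m + 1),
        ((t : ℝ) + 2) ^ 2 / 2 ^ t * ((J : ℝ) ^ 2 * Pq Q (m - j)) := by
    refine Finset.sum_le_sum fun t _ => ?_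
    have := mul_le_mul_of_nonneg_right (pr ((t + 2) * J))
      (show (0 : ℝ) ≤ (Pq Q (m - j) : ℝ) / 2 ^ t by positivity)
    refine this.trans (le_of_eq ?_)
    push_cast
    ring
  rw [← Finset.sum_mul, geo_Ratio] at e4
  have e5 := mul_le_mul_of_nonneg_right (pr j) (Nat.cast_nonneg (α := ℝ) (Pq Q m))
  have e6 : (0 : ℝ) ≤ (2 * ((m + 1 : ℕ) : ℝ) ^ 2 + 12 * ((m + 1 : ℕ) : ℝ) + 22) / 2 ^ (m + 1) *
      ((J : ℝ) ^ 2 * Pq Q (m - j)) := by positivity
  have e7 : (2 * (j : ℝ) ^ 2) * Pq Q m ≤ (m : ℝ) * Pq Q m :=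
    mul_le_mul_of_nonneg_right (by exact_mod_cast h5) (Nat.cast_nonneg _)
  have e8 : ((m * Pq Q m : ℕ) : ℝ) ≤ ((44 * J ^ 2 * Pq Q (m - j) : ℕ) : ℝ) := by
    rw [e3] at e2
    have := e1.trans e2
    push_cast at this e4 e5 e6 ⊢
    nlinarith [this, e4, e5, e6, e7]
  exact_mod_cast e8

end Pool.Agent.MP_dbdb85_co
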